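import Mathlib

/-!
# Numbers for the theorem on lattices of bounded breadth
-/

namespace Pool.Agent.H75.VC

open Filter Real

/-- `K = ((t + 1) ^ b + 1) ^ b`. -/
lemma log_K_le (b n : ℕ) (hn : 1 ≤ n) :
    Real.log (((n : ℝ) ^ b + 1) ^ b) ≤ (b : ℝ) ^ 2 * Real.log n + b := by
  have hn' : (1 : ℝ) ≤ n := by exact_mod_cast hn
  have hnb : (1 : ℝ) ≤ (n : ℝ) ^ b := one_le_pow₀ hn'
  have h1 : Real.log ((n : ℝ) ^ b + 1) ≤ b * Real.log n + 1 := by
    have h2 : (n : ℝ) ^ b + 1 ≤ 2 * (n : ℝ) ^ b := by linarith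
    have h3 : Real.log ((n : ℝ) ^ b + 1) ≤ Real.log (2 * (n : ℝ) ^ b) :=
      Real.log_le_log (by linarith) h2
    rw [Real.log_mul (by norm_num) (by linarith), Real.log_pow] at h3
    have h4 : Real.log 2 < 1 := by
      have := Real.log_two_lt_d9
      linarith
    linarith
  rw [Real.log_pow]
  have hb : (0 : ℝ) ≤ b := Nat.cast_nonneg b
  calc (b : ℝ) * Real.log ((n : ℝ) ^ b + 1) ≤ b * (b * Real.log n + 1) :=
        mul_le_mul_of_nonneg_left h1 hb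
    _ = (b : ℝ) ^ 2 * Real.log n + b := by ring

lemma core (b : ℕ) (Λ C D : ℝ) (t t1 : ℕ) (K K1 e e1 η : ℝ)
    (ht : t = ⌈2 * Λ ^ 2⌉₊ + 1) (hK : K = (((t : ℝ) + 1) ^ b + 1) ^ b)
    (he : e = 1 / Λ) (he1 : e1 = 1 / (96 * ((b : ℝ) ^ 2 + 1)))
    (ht1 : t1 = ⌈2 * Real.log K / e1⌉₊ + 1) (hK1 : K1 = (((t1 : ℝ) + 1) ^ b + 1) ^ b)
    (hη : η = e + Real.log K / (2 * Λ))
    (hC : C = 200 * ((b : ℝ) ^ 2 + 1) * (3 * (b : ℝ) ^ 2 + b + 1))
    (hD : D = 5 + b + (b : ℝ) ^ 2 * Real.log C + Real.log C)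
    (hΛ : 3 ≤ Λ) (hl1 : 1 ≤ Real.log Λ) (h1 : C * Real.log Λ ≤ Λ)
    (h2 : Real.log (Real.log Λ) ≤ Real.log Λ / (16 * ((b : ℝ) ^ 2 + 1)))
    (h3 : 8 * D < Real.log Λ) :
    32 * η ≤ 1 ∧ Real.log 2 + 2 * e * Λ + (2 * e + 2 * e1) * Real.log K + Real.log K1 <
      1 / 4 * Real.log (1 / (48 * η)) := by
  have hΛ0 : 0 < Λ := by linarith
  set l := Real.log Λ with hl
  have hb : (0 : ℝ) ≤ b := Nat.cast_nonneg b
  have hb2 : (0 : ℝ) ≤ (b : ℝ) ^ 2 := by positivity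
  -- bound of `K`
  have hlogK : Real.log K ≤ 3 * (b : ℝ) ^ 2 * l + b := by
    have e1' : (((t + 1 : ℕ) : ℝ)) ≤ Λ ^ 3 := by
      have hc : (⌈2 * Λ ^ 2⌉₊ : ℝ) < 2 * Λ ^ 2 + 1 := Nat.ceil_lt_add_one (by positivity)
      rw [ht]
      push_cast
      nlinarith [mul_nonneg (sq_nonneg Λ) (sub_nonneg.2 hΛ), sq_nonneg (Λ - 3)]
    have e2 := log_K_le b (t + 1) (by omega)
    have e3 : Real.log ((t + 1 : ℕ) : ℝ) ≤ 3 * l := by
      have := Real.log_le_log (by positivity) e1'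
      rw [Real.log_pow] at this
      push_cast at this ⊢
      exact this
    rw [hK]
    push_cast at e2 e3 ⊢
    nlinarith
  have hK1' : 1 ≤ K := by
    rw [hK]
    apply one_le_pow₀
    have : (0 : ℝ) ≤ ((t : ℝ) + 1) ^ b := by positivity
    linarith
  have hlogK0 : 0 ≤ Real.log K := Real.log_nonneg hK1'
  have hlogK2 : Real.log K ≤ (3 * (b : ℝ) ^ 2 + b) * l := by nlinarith
  have he1pos : 0 < e1 := by rw [he1]; positivity
  have hC1 : 200 ≤ C := by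
    rw [hC]
    nlinarith [mul_nonneg hb2 hb2, mul_nonneg hb2 hb]
  -- bound of `t1`
  have ht1' : ((t1 : ℝ) + 1) ≤ C * l := by
    have hc : (⌈2 * Real.log K / e1⌉₊ : ℝ) < 2 * Real.log K / e1 + 1 :=
      Nat.ceil_lt_add_one (by positivity)
    have e4 : 2 * Real.log K / e1 = 192 * ((b : ℝ) ^ 2 + 1) * Real.log K := by
      rw [he1]
      field_simp
      ring
    rw [ht1]
    push_cast
    rw [e4] at hc
    have e5 : 192 * ((b : ℝ) ^ 2 + 1) * Real.log K ≤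
        192 * ((b : ℝ) ^ 2 + 1) * ((3 * (b : ℝ) ^ 2 + b) * l) :=
      mul_le_mul_of_nonneg_left hlogK2 (by positivity)
    have e6 : 192 * ((b : ℝ) ^ 2 + 1) * ((3 * (b : ℝ) ^ 2 + b) * l) + 3 ≤ C * l := by
      rw [hC]
      have e7 : 0 ≤ ((b : ℝ) ^ 2 + 1) * (3 * (b : ℝ) ^ 2 + b) * l := by positivity
      have e8 : 1 ≤ ((b : ℝ) ^ 2 + 1) * l := by nlinarith
      nlinarith
    rw [e4]
    linarith
  have hCl : 0 < C * l := by nlinarith
  have hlogK1 : Real.log K1 ≤ (b : ℝ) ^ 2 * (Real.log C + Real.log l) + b := by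
    have e2 := log_K_le b (t1 + 1) (by omega)
    have e3 : Real.log ((t1 + 1 : ℕ) : ℝ) ≤ Real.log C + Real.log l := by
      rw [← Real.log_mul (by linarith) (by linarith)]
      apply Real.log_le_log (by positivity)
      push_cast
      exact ht1'
    rw [hK1]
    push_cast at e2 e3 ⊢
    nlinarith
  -- bound of `η`
  have hη0 : 0 < η := by
    rw [hη, he]
    positivity
  have hη1 : 48 * η ≤ C * l / Λ := by
    rw [hη, he, le_div_iff₀ hΛ0]
    have e9 : 48 * (1 / Λ + Real.log K / (2 * Λ)) * Λ = 48 + 24 * Real.log K := by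
      field_simp
      ring
    rw [e9]
    have e10 : 24 * Real.log K ≤ 24 * ((3 * (b : ℝ) ^ 2 + b) * l) := by linarith
    have e11 : 48 + 24 * ((3 * (b : ℝ) ^ 2 + b) * l) ≤ C * l := by
      rw [hC]
      have e7 : 0 ≤ (3 * (b : ℝ) ^ 2 + b) * l := by positivity
      have e12 : 0 ≤ (b : ℝ) ^ 2 * ((3 * (b : ℝ) ^ 2 + b) * l) := by positivity
      have e13 : 0 ≤ (b : ℝ) ^ 2 * l := by positivity
      nlinarith
    linarith
  have hη2 : 48 * η ≤ 1 := by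
    refine hη1.trans ?_
    rw [div_le_one hΛ0]
    exact h1
  refine ⟨by linarith, ?_⟩
  have hR : l - Real.log C - Real.log l ≤ Real.log (1 / (48 * η)) := by
    have e14 : Λ / (C * l) ≤ 1 / (48 * η) := by
      rw [div_le_div_iff₀ hCl (by positivity)]
      rw [le_div_iff₀ hΛ0] at hη1
      linarith
    have e15 := Real.log_le_log (by positivity) e14
    rw [Real.log_div (by linarith) (by linarith), Real.log_mul (by linarith) (by linarith)] at e15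
    linarith
  have hL2 : Real.log 2 ≤ 1 := by
    have := Real.log_two_lt_d9
    linarith
  have g1 : 2 * e * Λ = 2 := by
    rw [he]
    field_simp
  have g2 : 2 * e * Real.log K ≤ 1 := by
    have : 2 * e * Real.log K = 2 * Real.log K / Λ := by
      rw [he]
      field_simp
    rw [this, div_le_one hΛ0]
    refine le_trans ?_ h1
    rw [hC]
    have e7 : 0 ≤ (3 * (b : ℝ) ^ 2 + b) * l := by positivity
    have e12 : 0 ≤ (b : ℝ) ^ 2 * ((3 * (b : ℝ) ^ 2 + b) * l) := by positivity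
    have e13 : 0 ≤ (b : ℝ) ^ 2 * l := by positivity
    nlinarith
  have g3 : 2 * e1 * Real.log K ≤ l / 16 + 1 := by
    have : 2 * e1 * Real.log K = Real.log K / (48 * ((b : ℝ) ^ 2 + 1)) := by
      rw [he1]
      field_simp
      ring
    rw [this, div_le_iff₀ (by positivity)]
    nlinarith [sq_nonneg ((b : ℝ) - 1), mul_nonneg hb2 (by linarith : (0 : ℝ) ≤ l)]
  have hlogl0 : 0 ≤ Real.log l := Real.log_nonneg hl1
  have g4 : ((b : ℝ) ^ 2 + 1) * Real.log l ≤ l / 16 := by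
    rw [le_div_iff₀ (by positivity)] at h2
    linarith
  have hlogC0 : 0 ≤ Real.log C := Real.log_nonneg (by linarith)
  have g5 : (2 * e + 2 * e1) * Real.log K = 2 * e * Real.log K + 2 * e1 * Real.log K := by ring
  rw [g1, g5]
  rw [hD] at h3
  have g6 : 1 / 4 * (l - Real.log C - Real.log l) ≤ 1 / 4 * Real.log (1 / (48 * η)) := by
    linarith
  refine lt_of_lt_of_le ?_ g6
  nlinarith

/-- (I4) The numbers. -/
theorem numbers (b : ℕ) : ∃ Λ0 : ℝ, 3 ≤ Λ0 ∧ ∀ Λ : ℝ, Λ0 ≤ Λ →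
    ∀ (t t1 : ℕ) (K K1 e e1 η : ℝ), t = ⌈2 * Λ ^ 2⌉₊ + 1 → K = (((t : ℝ) + 1) ^ b + 1) ^ b →
      e = 1 / Λ → e1 = 1 / (96 * ((b : ℝ) ^ 2 + 1)) →
      t1 = ⌈2 * Real.log K / e1⌉₊ + 1 → K1 = (((t1 : ℝ) + 1) ^ b + 1) ^ b →
      η = e + Real.log K / (2 * Λ) →
      32 * η ≤ 1 ∧ Real.log 2 + 2 * e * Λ + (2 * e + 2 * e1) * Real.log K + Real.log K1 <
        1 / 4 * Real.log (1 / (48 * η)) := by
  set C : ℝ := 200 * ((b : ℝ) ^ 2 + 1) * (3 * (b : ℝ) ^ 2 + b + 1) with hC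
  set D : ℝ := 5 + b + (b : ℝ) ^ 2 * Real.log C + Real.log C with hD
  have hCpos : 0 < C := by positivity
  have hlog : Tendsto Real.log atTop atTop := Real.tendsto_log_atTop
  have c1 : ∀ᶠ Λ : ℝ in atTop, 3 ≤ Λ := eventually_ge_atTop 3
  have c2 : ∀ᶠ Λ : ℝ in atTop, 1 ≤ Real.log Λ := hlog.eventually (eventually_ge_atTop 1)
  have c3 : ∀ᶠ Λ : ℝ in atTop, C * Real.log Λ ≤ Λ := by
    have := Real.isLittleO_log_id_atTop.bound (c := 1 / C) (by positivity)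
    filter_upwards [this, c1, c2] with Λ h1 h2 h3
    rw [Real.norm_of_nonneg (by linarith), id, Real.norm_of_nonneg (by linarith)] at h1
    rw [div_mul_eq_mul_div, one_mul, le_div_iff₀ hCpos] at h1
    linarith
  have c4 : ∀ᶠ Λ : ℝ in atTop,
      Real.log (Real.log Λ) ≤ Real.log Λ / (16 * ((b : ℝ) ^ 2 + 1)) := by
    have := Real.isLittleO_log_id_atTop.bound (c := 1 / (16 * ((b : ℝ) ^ 2 + 1))) (by positivity)
    have := (hlog.eventually this)
    filter_upwards [this, c2] with Λ h1 h2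
    rw [id, Real.norm_of_nonneg (by linarith : (0 : ℝ) ≤ Real.log Λ), Real.norm_eq_abs] at h1
    have := (le_abs_self _).trans h1
    rw [div_mul_eq_mul_div, one_mul] at this
    exact this
  have c5 : ∀ᶠ Λ : ℝ in atTop, 8 * D < Real.log Λ := hlog.eventually (eventually_gt_atTop _)
  obtain ⟨Λ1, h⟩ := eventually_atTop.1 (c1.and (c2.and (c3.and (c4.and c5))))
  refine ⟨max 3 Λ1, le_max_left _ _, ?_⟩
  intro Λ hΛ t t1 K K1 e e1 η ht hK he he1 ht1 hK1 hη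
  obtain ⟨h1, h2, h3, h4, h5⟩ := h Λ ((le_max_right _ _).trans hΛ)
  exact core b Λ C D t t1 K K1 e e1 η ht hK he he1 ht1 hK1 hη hC hD h1 h2 h3 h4 h5

end Pool.Agent.H75.VC
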